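import Pool.Agent.W282.EZ.Stm

/-!
# Reduction of points of a short Weierstrass curve is a homomorphism (part RED of project EZ)
-/

set_option autoImplicit false

namespace Pool.Agent.W978.EZ

open Pool.Agent.W282.EZ WeierstrassCurve.Affine

/-! ### Curves over a field -/

section fld

variable {F : Type} [Field F] {A B : F}

theorem ns_eq {x y : F} (h : (cv A B).Nonsingular x y) : y ^ 2 = x ^ 3 + A * x + B := by
  have := h.1
  rw [equation_iff] at this
  simpa [cv] using this

theorem disc_aux {x A B : F} (h1 : 3 * x ^ 2 + A = 0) (h : 0 = x ^ 3 + A * x + B) :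
    4 * A ^ 3 + 27 * B ^ 2 = 0 := by
  have hA : A = -(3 * x ^ 2) := by linear_combination h1
  have hB : B = 2 * x ^ 3 := by
    have : B = -(x ^ 3 + A * x) := by linear_combination -h
    rw [this, hA]; ring
  rw [hA, hB]; ring

theorem ns_of (h2 : (2 : F) ≠ 0) (hD : 4 * A ^ 3 + 27 * B ^ 2 ≠ 0) {x y : F}
    (h : y ^ 2 = x ^ 3 + A * x + B) : (cv A B).Nonsingular x y := by
  rw [nonsingular_iff']
  refine ⟨?_, ?_⟩
  · rw [equation_iff]
    simpa [cv] using h
  · by_contra hc
    push Not at hc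
    obtain ⟨h3, h4⟩ := hc
    simp only [cv, zero_mul, mul_zero, add_zero, zero_sub] at h3 h4
    have hy : y = 0 := (mul_eq_zero.1 h4).resolve_left h2
    apply hD
    apply disc_aux (x := x) (by linear_combination -h3)
    rw [← h, hy]; ring

theorem pt_of {x y : F} (h : (cv A B).Nonsingular x y) : pt A B x y = .some x y h := by
  unfold pt
  rw [dif_pos h]

theorem negY_cv (x y : F) : (cv A B).negY x y = -y := by
  simp [negY, cv]

theorem e_of_x {R : Type} [CommRing R] [IsDomain R] {A B x1 y1 x2 y2 L : R}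
    (c1 : y1 ^ 2 = x1 ^ 3 + A * x1 + B) (c2 : y2 ^ 2 = x2 ^ 3 + A * x2 + B)
    (hx : x1 - x2 ≠ 0) (E1 : L * (x1 - x2) = y1 - y2) :
    L * (y1 + y2) = x1 ^ 2 + x1 * x2 + x2 ^ 2 + A := by
  apply mul_right_cancel₀ hx
  linear_combination (y1 + y2) * E1 + c1 - c2

theorem e_of_y {R : Type} [CommRing R] [IsDomain R] {A B x1 y1 x2 y2 L : R}
    (c1 : y1 ^ 2 = x1 ^ 3 + A * x1 + B) (c2 : y2 ^ 2 = x2 ^ 3 + A * x2 + B)
    (hy : y1 + y2 ≠ 0) (E2 : L * (y1 + y2) = x1 ^ 2 + x1 * x2 + x2 ^ 2 + A) :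
    L * (x1 - x2) = y1 - y2 := by
  apply mul_right_cancel₀ hy
  linear_combination (x1 - x2) * E2 - c1 + c2

theorem ex_slope {x1 y1 x2 y2 : F} (c1 : y1 ^ 2 = x1 ^ 3 + A * x1 + B)
    (c2 : y2 ^ 2 = x2 ^ 3 + A * x2 + B) (hn : ¬(x1 = x2 ∧ y1 = -y2)) :
    ∃ L : F, L * (x1 - x2) = y1 - y2 ∧ L * (y1 + y2) = x1 ^ 2 + x1 * x2 + x2 ^ 2 + A := by
  by_cases hx : x1 = x2
  · have hy : y1 + y2 ≠ 0 := fun h => hn ⟨hx, eq_neg_of_add_eq_zero_left h⟩
    have E2 : (x1 ^ 2 + x1 * x2 + x2 ^ 2 + A) / (y1 + y2) * (y1 + y2) =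
      x1 ^ 2 + x1 * x2 + x2 ^ 2 + A := div_mul_cancel₀ _ hy
    exact ⟨_, e_of_y c1 c2 hy E2, E2⟩
  · have hx' : x1 - x2 ≠ 0 := sub_ne_zero.2 hx
    have E1 : (y1 - y2) / (x1 - x2) * (x1 - x2) = y1 - y2 := div_mul_cancel₀ _ hx'
    exact ⟨_, E1, e_of_x c1 c2 hx' E1⟩

theorem add_eq [DecidableEq F] {x1 y1 x2 y2 L : F}
    (h1 : (cv A B).Nonsingular x1 y1)
    (h2' : (cv A B).Nonsingular x2 y2) (hn : ¬(x1 = x2 ∧ y1 = -y2))
    (E1 : L * (x1 - x2) = y1 - y2) (E2 : L * (y1 + y2) = x1 ^ 2 + x1 * x2 + x2 ^ 2 + A) :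
    ∃ h3 : (cv A B).Nonsingular (L ^ 2 - x1 - x2) (-(L * ((L ^ 2 - x1 - x2) - x1) + y1)),
      (Point.some x1 y1 h1 + Point.some x2 y2 h2' : (cv A B).Point) = .some _ _ h3 := by
  have hn' : ¬(x1 = x2 ∧ y1 = (cv A B).negY x2 y2) := by rwa [negY_cv]
  have hs : (cv A B).slope x1 x2 y1 y2 = L := by
    by_cases hx : x1 = x2
    · have hy : y1 ≠ -y2 := fun h => hn ⟨hx, h⟩
      have hyy : y1 = y2 := by
        rw [hx, sub_self, mul_zero] at E1
        exact (sub_eq_zero.1 E1.symm)
      rw [slope_of_Y_ne hx (by rw [negY_cv]; exact hy), negY_cv]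
      have hy0 : y1 - -y1 ≠ 0 := by
        intro h
        apply hy
        rw [← hyy]
        linear_combination h
      rw [div_eq_iff hy0]
      simp only [cv]
      rw [← hyy, ← hx] at E2
      linear_combination -E2
    · rw [slope_of_X_ne hx, div_eq_iff (sub_ne_zero.2 hx)]
      exact E1.symm
  have e1 : (cv A B).addX x1 x2 ((cv A B).slope x1 x2 y1 y2) = L ^ 2 - x1 - x2 := by
    rw [hs]; simp [addX, cv]
  have e2 : (cv A B).addY x1 x2 y1 ((cv A B).slope x1 x2 y1 y2) =
      -(L * ((L ^ 2 - x1 - x2) - x1) + y1) := by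
    rw [hs]; simp [addY, negAddY, addX, negY, cv]
  have h3 := nonsingular_add h1 h2' hn'
  rw [e1, e2] at h3
  refine ⟨h3, ?_⟩
  rw [Point.add_some hn']
  simp only [Point.some.injEq]
  exact ⟨e1, e2⟩

theorem add_zero' [DecidableEq F] {x1 y1 x2 y2 : F} (h1 : (cv A B).Nonsingular x1 y1)
    (h2 : (cv A B).Nonsingular x2 y2) (hx : x1 = x2) (hy : y1 = -y2) :
    (Point.some x1 y1 h1 + Point.some x2 y2 h2 : (cv A B).Point) = 0 :=
  Point.add_of_Y_eq hx (by rw [negY_cv]; exact hy)

end fld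

/-! ### Valuation rings -/

section val

variable {K : Type} [Field K] {O : ValuationSubring K}

theorem unit_of {u : O} (h : IsLocalRing.residue O u ≠ 0) : ∃ u' : O, u * u' = 1 := by
  have := (IsLocalRing.residue_ne_zero_iff_isUnit u).1 h
  exact this.exists_right_inv

theorem inv_res {x : K} (hx : x ∉ O) : ∃ t : O, (t : K) * x = 1 ∧ IsLocalRing.residue O t = 0 := by
  have hinv := (O.mem_or_inv_mem x).resolve_left hx
  have hx0 : x ≠ 0 := by
    rintro rfl
    exact hx O.zero_mem
  refine ⟨⟨x⁻¹, hinv⟩, inv_mul_cancel₀ hx0, ?_⟩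
  by_contra h
  obtain ⟨u, hu⟩ := unit_of h
  have h1 : x⁻¹ * (u : K) = 1 := by
    have := congrArg (fun z : O => (z : K)) hu
    simpa using this
  have h2 : (u : K) = x := by
    calc (u : K) = x * (x⁻¹ * u) := by rw [← mul_assoc, mul_inv_cancel₀ hx0, one_mul]
      _ = x := by rw [h1, mul_one]
  exact hx (h2 ▸ u.2)

theorem sq_mem {x : K} (h : x ^ 2 ∈ O) : x ∈ O := by
  by_contra hx
  obtain ⟨t, ht, _⟩ := inv_res hx
  apply hx
  have : x = x ^ 2 * t := by
    calc x = x * ((t : K) * x) := by rw [ht, mul_one]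
      _ = x ^ 2 * t := by ring
  rw [this]
  exact O.mul_mem _ _ h t.2

theorem y_mem {A B x : O} {y : K} (h : y ^ 2 = (x : K) ^ 3 + A * x + B) : y ∈ O := by
  apply sq_mem
  rw [h]
  exact (x ^ 3 + A * x + B : O).2

/-- the coordinates `z = x / y`, `w = 1 / y` of a point which reduces to infinity -/
theorem zw {A B : O} {x y : K} (hx : x ∉ O) (h : y ^ 2 = x ^ 3 + A * x + B) :
    ∃ z w : O, (z : K) * y = x ∧ (w : K) * y = 1 ∧ IsLocalRing.residue O z = 0 ∧ IsLocalRing.residue O w = 0 ∧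
      w = z ^ 3 + A * z * w ^ 2 + B * w ^ 3 := by
  obtain ⟨t, ht, ht0⟩ := inv_res hx
  set u : O := 1 + A * t ^ 2 + B * t ^ 3 with hu
  have hu1 : IsLocalRing.residue O u = 1 := by
    rw [hu]
    simp [ht0]
  obtain ⟨u', hu'⟩ := unit_of (u := u) (by rw [hu1]; exact one_ne_zero)
  have huK : (u : K) * (u' : K) = 1 := by
    have := congrArg (fun z : O => (z : K)) hu'
    simpa using this
  have hyt : y ^ 2 * (t : K) ^ 3 = u := by
    rw [h, hu]
    push_cast
    have e1 : (x ^ 3) * (t : K) ^ 3 = 1 := by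
      rw [← mul_pow, mul_comm, ht, one_pow]
    have e2 : x * (t : K) ^ 3 = (t : K) ^ 2 := by
      calc x * (t : K) ^ 3 = (t * x) * (t : K) ^ 2 := by ring
        _ = _ := by rw [ht, one_mul]
    linear_combination e1 + (A : K) * e2
  have hu0 : (u : K) ≠ 0 := left_ne_zero_of_mul (by rw [huK]; exact one_ne_zero)
  have hy0 : y ≠ 0 := by
    rintro rfl
    apply hu0
    rw [← hyt]; ring
  have hz2 : (x / y) ^ 2 = ((t * u' : O) : K) := by
    push_cast
    rw [div_pow, div_eq_iff (pow_ne_zero 2 hy0)]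
    have e1 : x ^ 2 * (t : K) ^ 2 = 1 := by
      rw [← mul_pow, mul_comm, ht, one_pow]
    calc x ^ 2 = x ^ 2 * ((u : K) * u') := by rw [huK, mul_one]
      _ = x ^ 2 * (y ^ 2 * (t : K) ^ 3 * u') := by rw [hyt]
      _ = (x ^ 2 * (t : K) ^ 2) * (t * u' * y ^ 2) := by ring
      _ = _ := by rw [e1, one_mul]
  have hzm : x / y ∈ O := sq_mem (by rw [hz2]; exact (t * u' : O).2)
  set z : O := ⟨x / y, hzm⟩ with hz
  have hzy : (z : K) * y = x := div_mul_cancel₀ _ hy0
  have hwy : ((z * t : O) : K) * y = 1 := by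
    push_cast
    calc (z : K) * t * y = t * (z * y) := by ring
      _ = 1 := by rw [hzy, ht]
  have hz0 : IsLocalRing.residue O z = 0 := by
    have e1 : z ^ 2 = t * u' := by
      apply Subtype.ext
      push_cast
      have := hz2
      push_cast at this
      exact this
    have e2 : IsLocalRing.residue O z ^ 2 = 0 := by
      rw [← map_pow, e1, map_mul, ht0, zero_mul]
    exact pow_eq_zero_iff two_ne_zero |>.1 e2
  refine ⟨z, z * t, hzy, hwy, hz0, by rw [map_mul, ht0, mul_zero], ?_⟩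
  set w : O := z * t with hw
  apply Subtype.ext
  push_cast
  have e1 : (w : K) * x = z := by
    calc (w : K) * x = w * (z * y) := by rw [hzy]
      _ = (w * y) * z := by ring
      _ = z := by rw [hwy, one_mul]
  have e2 : (w : K) ^ 3 * y ^ 2 = (w : K) := by
    calc (w : K) ^ 3 * y ^ 2 = (w : K) * ((w : K) * y) ^ 2 := by ring
      _ = (w : K) := by rw [hwy]; ring
  calc (w : K) = w ^ 3 * y ^ 2 := e2.symm
    _ = w ^ 3 * (x ^ 3 + A * x + B) := by rw [h]
    _ = (w * x) ^ 3 + A * (w * x) * w ^ 2 + B * w ^ 3 := by ring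
    _ = _ := by rw [e1]

theorem ker_aux (h2K : (2 : K) ≠ 0) {A B : O} {x1 y1 x2 y2 L : K} (hx1 : x1 ∉ O) (hx2 : x2 ∉ O)
    (c1 : y1 ^ 2 = x1 ^ 3 + A * x1 + B) (c2 : y2 ^ 2 = x2 ^ 3 + A * x2 + B)
    (E1 : L * (x1 - x2) = y1 - y2) (E2 : L * (y1 + y2) = x1 ^ 2 + x1 * x2 + x2 ^ 2 + A)
    {x3 y3 : K} (h3 : y3 = -(L * (x3 - x1) + y1)) (hx3 : x3 ∈ O) (hy3 : y3 ∈ O) : False := by
  obtain ⟨z1, w1, a1, b1, z10, w10, r1⟩ := zw hx1 c1
  obtain ⟨z2, w2, a2, b2, z20, w20, r2⟩ := zw hx2 c2
  set D : O := 1 - A * z2 * (w1 + w2) - B * (w1 ^ 2 + w1 * w2 + w2 ^ 2) with hD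
  have hD1 : IsLocalRing.residue O D = 1 := by
    rw [hD]
    simp [z20, w10, w20]
  obtain ⟨D', hD'⟩ := unit_of (u := D) (by rw [hD1]; exact one_ne_zero)
  set N : O := z1 ^ 2 + z1 * z2 + z2 ^ 2 + A * w1 ^ 2 with hN
  have hN0 : IsLocalRing.residue O N = 0 := by
    rw [hN]
    simp [z10, z20, w10]
  have hDN : D * (w1 - w2) = N * (z1 - z2) := by
    rw [hD, hN]
    linear_combination r1 - r2
  set la : O := N * D' with hla
  have hla0 : IsLocalRing.residue O la = 0 := by rw [hla, map_mul, hN0, zero_mul]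
  have hDla : D * la = N := by
    rw [hla]
    calc D * (N * D') = N * (D * D') := by ring
      _ = N := by rw [hD', mul_one]
  have hw : w1 - w2 = la * (z1 - z2) := by
    calc w1 - w2 = (D * D') * (w1 - w2) := by rw [hD', one_mul]
      _ = D' * (D * (w1 - w2)) := by ring
      _ = la * (z1 - z2) := by rw [hDN, hla]; ring
  set nu : O := w1 - la * z1 with hnu
  have hnu0 : IsLocalRing.residue O nu = 0 := by rw [hnu, map_sub, map_mul, w10, hla0, zero_mul, sub_zero]
  have hnu2 : nu = w2 - la * z2 := by rw [hnu]; linear_combination hw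
  have l1 : (la : K) * x1 + nu * y1 = 1 := by
    rw [hnu, ← a1, ← b1]; push_cast; ring
  have l2 : (la : K) * x2 + nu * y2 = 1 := by
    rw [hnu2, ← a2, ← b2]; push_cast; ring
  have hy1 : y1 ≠ 0 := by
    rintro rfl
    rw [mul_zero] at b1
    exact zero_ne_one b1
  have key : (la : K) + nu * L = 0 := by
    by_cases hx : x1 = x2
    · have hyy : y1 = y2 := by
        rw [hx, sub_self, mul_zero] at E1
        exact (sub_eq_zero.1 E1.symm)
      have hz12 : z1 = z2 := by
        apply Subtype.ext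
        apply mul_right_cancel₀ hy1
        calc (z1 : K) * y1 = x1 := a1
          _ = x2 := hx
          _ = z2 * y2 := a2.symm
          _ = z2 * y1 := by rw [hyy]
      have hw12 : w1 = w2 := by
        apply Subtype.ext
        apply mul_right_cancel₀ hy1
        rw [b1, hyy, b2]
      have hDK : (D : K) ≠ 0 := by
        have := congrArg (fun z : O => (z : K)) hD'
        simp only [MulMemClass.coe_mul, OneMemClass.coe_one] at this
        exact left_ne_zero_of_mul (by rw [this]; exact one_ne_zero)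
      apply mul_left_cancel₀ hDK
      apply mul_left_cancel₀ h2K
      apply mul_left_cancel₀ hy1
      rw [mul_zero, mul_zero, mul_zero]
      have f1 : (D : K) * la = N := by exact_mod_cast congrArg (fun z : O => (z : K)) hDla
      have f2 : (N : K) = 3 * (z1 : K) ^ 2 + A * (w1 : K) ^ 2 := by
        rw [hN, ← hz12]; push_cast; ring
      have f3 : (D : K) = 1 - 2 * A * z1 * w1 - 3 * B * (w1 : K) ^ 2 := by
        rw [hD, ← hz12, ← hw12]; push_cast; ring
      have f4 : (nu : K) = w1 - la * z1 := by rw [hnu]; push_cast; ring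
      have f5 : L * (2 * y1) = 3 * x1 ^ 2 + A := by
        rw [← hyy, ← hx] at E2
        linear_combination E2
      have f6 : 3 * x1 ^ 2 + (A : K) = N * y1 ^ 2 := by
        rw [f2, ← a1]
        linear_combination (-(A : K)) * ((w1 : K) * y1 + 1) * b1
      have f7 : (w1 : K) = z1 ^ 3 + A * z1 * w1 ^ 2 + B * w1 ^ 3 := by
        have := congrArg (fun z : O => (z : K)) r1
        simpa using this
      have f8 : (D : K) * nu = D * w1 - N * z1 := by
        rw [f4, mul_sub]
        linear_combination (-(z1 : K)) * f1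
      have f9 : 2 + (D : K) - N * z1 * y1 = 0 := by
        rw [f2, f3]
        linear_combination (3 * y1) * f7 - (3 - 2 * A * z1 * (w1 : K) - 3 * B * (w1 : K) ^ 2) * b1
      calc y1 * (2 * (D * ((la : K) + nu * L))) = 2 * y1 * (D * la) + (D * nu) * (L * (2 * y1)) := by
            ring
        _ = 2 * y1 * N + (D * w1 - N * z1) * (N * y1 ^ 2) := by rw [f1, f8, f5, f6]
        _ = N * y1 * (2 + D - N * z1 * y1) + N * y1 * D * ((w1 : K) * y1 - 1) := by ring
        _ = 0 := by rw [f9, b1]; ring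
    · apply mul_right_cancel₀ (sub_ne_zero.2 hx)
      rw [zero_mul]
      linear_combination (nu : K) * E1 + l1 - l2
  have fin : (la : K) * x3 + nu * (-y3) = 1 := by
    rw [h3]
    linear_combination (x3 - x1) * key + l1
  have fin' : la * ⟨x3, hx3⟩ + nu * (-⟨y3, hy3⟩) = (1 : O) := by
    apply Subtype.ext
    push_cast
    exact fin
  have := congrArg (fun z : O => IsLocalRing.residue O z) fin'
  simp [hla0, hnu0] at this

/-! ### The reduction map -/

variable (O) in
open Classical in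
/-- reduction of an element of the field (zero if it is not integral) -/
noncomputable def rd (x : K) : IsLocalRing.ResidueField O :=
  if h : x ∈ O then IsLocalRing.residue O ⟨x, h⟩ else 0

theorem rd_coe (x : O) : rd O (x : K) = IsLocalRing.residue O x := by
  unfold rd
  rw [dif_pos x.2]

variable (O) in
open Classical in
/-- reduction of points -/
noncomputable def psi (A B : O) :
    (cv (A : K) (B : K)).Point → (cv (IsLocalRing.residue O A) (IsLocalRing.residue O B)).Point
  | .zero => 0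
  | .some x y _ => if x ∈ O then pt (IsLocalRing.residue O A) (IsLocalRing.residue O B) (rd O x) (rd O y) else 0

variable {A B : O}

theorem psi_zero : psi O A B 0 = 0 := rfl

theorem psi_int (x y : O) (h : (cv (A : K) (B : K)).Nonsingular (x : K) (y : K)) :
    psi O A B (.some (x : K) (y : K) h) = pt (IsLocalRing.residue O A) (IsLocalRing.residue O B) (IsLocalRing.residue O x) (IsLocalRing.residue O y) := by
  unfold psi
  simp only
  rw [if_pos x.2, rd_coe, rd_coe]

theorem psi_non {x y : K} (h : (cv (A : K) (B : K)).Nonsingular x y) (hx : x ∉ O) :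
    psi O A B (.some x y h) = 0 := by
  unfold psi
  simp only
  rw [if_neg hx]

variable (O) in
/-- the points reducing to infinity -/
def Ker (A B : O) (P : (cv (A : K) (B : K)).Point) : Prop :=
  P = 0 ∨ ∃ (x y : K) (h : (cv (A : K) (B : K)).Nonsingular x y), x ∉ O ∧ P = .some x y h

variable (O) in
/-- the integral points -/
def Int' (A B : O) (P : (cv (A : K) (B : K)).Point) : Prop :=
  ∃ (x y : O) (h : (cv (A : K) (B : K)).Nonsingular (x : K) (y : K)), P = .some (x : K) (y : K) h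

theorem cases_pt (P : (cv (A : K) (B : K)).Point) : Ker O A B P ∨ Int' O A B P := by
  rcases P with _ | ⟨x, y, h⟩
  · exact Or.inl (Or.inl rfl)
  · by_cases hx : x ∈ O
    · have hy : y ∈ O := y_mem (A := A) (B := B) (x := ⟨x, hx⟩) (ns_eq h)
      exact Or.inr ⟨⟨x, hx⟩, ⟨y, hy⟩, h, rfl⟩
    · exact Or.inl (Or.inr ⟨x, y, h, hx, rfl⟩)

theorem not_both {P : (cv (A : K) (B : K)).Point} (h : Ker O A B P) (h' : Int' O A B P) :
    False := by
  obtain ⟨x, y, hn, rfl⟩ := h'
  rcases h with h | ⟨x', y', hn', hx, h⟩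
  · exact Point.some_ne_zero _ h
  · rw [Point.some.injEq] at h
    exact hx (h.1 ▸ x.2)

theorem psi_ker {P : (cv (A : K) (B : K)).Point} (h : Ker O A B P) : psi O A B P = 0 := by
  rcases h with rfl | ⟨x', y', hn', hx, rfl⟩
  · rfl
  · exact psi_non hn' hx

theorem ker_neg {P : (cv (A : K) (B : K)).Point} (h : Ker O A B P) : Ker O A B (-P) := by
  rcases h with rfl | ⟨x', y', hn', hx, rfl⟩
  · exact Or.inl Point.neg_zero
  · refine Or.inr ⟨_, _, _, hx, Point.neg_some hn'⟩

variable [DecidableEq K]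

theorem ker_add (h2K : (2 : K) ≠ 0) {P Q : (cv (A : K) (B : K)).Point} (hP : Ker O A B P)
    (hQ : Ker O A B Q) : Ker O A B (P + Q) := by
  rcases hP with rfl | ⟨x1, y1, h1, hx1, rfl⟩
  · rwa [zero_add]
  rcases hQ with rfl | ⟨x2, y2, h2, hx2, rfl⟩
  · rw [add_zero]
    exact Or.inr ⟨x1, y1, h1, hx1, rfl⟩
  by_cases hn : x1 = x2 ∧ y1 = -y2
  · exact Or.inl (add_zero' h1 h2 hn.1 hn.2)
  obtain ⟨L, E1, E2⟩ := ex_slope (ns_eq h1) (ns_eq h2) hn
  obtain ⟨h3, e⟩ := add_eq h1 h2 hn E1 E2
  rw [e]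
  refine Or.inr ⟨_, _, h3, ?_, rfl⟩
  intro hx3
  have hy3 := y_mem (A := A) (B := B) (x := ⟨_, hx3⟩) (ns_eq h3)
  exact ker_aux h2K hx1 hx2 (ns_eq h1) (ns_eq h2) E1 E2 rfl hx3 hy3

omit [DecidableEq K] in
theorem eqn_O {x y : O} (h : (cv (A : K) (B : K)).Nonsingular (x : K) (y : K)) :
    y ^ 2 = x ^ 3 + A * x + B := by
  apply Subtype.ext
  push_cast
  exact ns_eq h

omit [DecidableEq K] in
theorem eqn_rs {x y : O} (h : y ^ 2 = x ^ 3 + A * x + B) :
    IsLocalRing.residue O y ^ 2 = IsLocalRing.residue O x ^ 3 + IsLocalRing.residue O A * IsLocalRing.residue O x + IsLocalRing.residue O B := by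
  have := congrArg (fun z : O => IsLocalRing.residue O z) h
  simpa using this

variable [DecidableEq (IsLocalRing.ResidueField O)]

theorem psi_neg (h2 : IsLocalRing.residue O (2 : O) ≠ 0) (hD : IsLocalRing.residue O (4 * A ^ 3 + 27 * B ^ 2 : O) ≠ 0)
    (P : (cv (A : K) (B : K)).Point) : psi O A B (-P) = -psi O A B P := by
  have h2' : (2 : IsLocalRing.ResidueField O) ≠ 0 := by
    rwa [map_ofNat] at h2
  have hD' : 4 * IsLocalRing.residue O A ^ 3 + 27 * IsLocalRing.residue O B ^ 2 ≠ 0 := by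
    simpa only [map_add, map_mul, map_pow, map_ofNat] using hD
  rcases cases_pt P with h | ⟨x, y, h, rfl⟩
  · rw [psi_ker h, psi_ker (ker_neg h), neg_zero]
  · rw [psi_int, pt_of (ns_of h2' hD' (eqn_rs (eqn_O h))), Point.neg_some, Point.neg_some]
    have e1 : (cv (A : K) (B : K)).negY (x : K) (y : K) = ((-y : O) : K) := by
      rw [negY_cv]; push_cast; rfl
    have h' : (cv (A : K) (B : K)).Nonsingular (x : K) ((-y : O) : K) := by
      rw [← e1]; exact (nonsingular_neg ..).2 h
    have e2 : (Point.some (x : K) ((cv (A : K) (B : K)).negY (x : K) (y : K))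
        ((nonsingular_neg ..).2 h) : (cv (A : K) (B : K)).Point) = .some _ _ h' := by
      simp only [Point.some.injEq]
      exact ⟨trivial, e1⟩
    rw [e2, psi_int]
    have e3 : (IsLocalRing.residue O (-y) : IsLocalRing.ResidueField O) = (cv (IsLocalRing.residue O A) (IsLocalRing.residue O B)).negY (IsLocalRing.residue O x) (IsLocalRing.residue O y) := by
      rw [negY_cv, map_neg]
    rw [e3]
    exact pt_of _

theorem int_add (h2 : IsLocalRing.residue O (2 : O) ≠ 0) (hD : IsLocalRing.residue O (4 * A ^ 3 + 27 * B ^ 2 : O) ≠ 0)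
    {P Q : (cv (A : K) (B : K)).Point} (hP : Int' O A B P) (hQ : Int' O A B Q) :
    psi O A B (P + Q) = psi O A B P + psi O A B Q := by
  have h2' : (2 : IsLocalRing.ResidueField O) ≠ 0 := by
    rwa [map_ofNat] at h2
  have hD' : 4 * IsLocalRing.residue O A ^ 3 + 27 * IsLocalRing.residue O B ^ 2 ≠ 0 := by
    simpa only [map_add, map_mul, map_pow, map_ofNat] using hD
  obtain ⟨x1, y1, h1, rfl⟩ := hP
  obtain ⟨x2, y2, h2, rfl⟩ := hQ
  have c1 := eqn_O h1
  have c2 := eqn_O h2
  have n1 := ns_of h2' hD' (eqn_rs c1)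
  have n2 := ns_of h2' hD' (eqn_rs c2)
  rw [psi_int, psi_int, pt_of n1, pt_of n2]
  by_cases hc : IsLocalRing.residue O x1 = IsLocalRing.residue O x2 ∧ IsLocalRing.residue O y1 = -IsLocalRing.residue O y2
  · rw [add_zero' n1 n2 hc.1 hc.2]
    by_cases hn : (x1 : K) = x2 ∧ (y1 : K) = -y2
    · rw [add_zero' h1 h2 hn.1 hn.2]; rfl
    obtain ⟨L, E1, E2⟩ := ex_slope (ns_eq h1) (ns_eq h2) hn
    obtain ⟨h3, e⟩ := add_eq h1 h2 hn E1 E2
    rw [e]
    apply psi_non
    intro hx3
    have hL : L ∈ O := by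
      apply sq_mem
      have : L ^ 2 = (L ^ 2 - x1 - x2) + x1 + x2 := by ring
      rw [this]
      exact O.add_mem _ _ (O.add_mem _ _ hx3 x1.2) x2.2
    set l : O := ⟨L, hL⟩
    have F1 : l * (x1 - x2) = y1 - y2 := by
      apply Subtype.ext; push_cast; exact E1
    have F2 : l * (y1 + y2) = x1 ^ 2 + x1 * x2 + x2 ^ 2 + A := by
      apply Subtype.ext; push_cast; exact E2
    have G1 := congrArg (fun z : O => IsLocalRing.residue O z) F1
    have G2 := congrArg (fun z : O => IsLocalRing.residue O z) F2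
    simp only [map_mul, map_sub, map_add, map_pow, hc.1, hc.2, sub_self, mul_zero,
      neg_add_cancel] at G1 G2
    have hy : IsLocalRing.residue O y2 = 0 := by
      have : 2 * IsLocalRing.residue O y2 = 0 := by linear_combination G1
      exact (mul_eq_zero.1 this).resolve_left h2'
    apply hD'
    apply disc_aux (x := IsLocalRing.residue O x2) (by linear_combination -G2)
    rw [← eqn_rs c2, hy]; ring
  · obtain ⟨l, F1, F2⟩ : ∃ l : O, l * (x1 - x2) = y1 - y2 ∧
        l * (y1 + y2) = x1 ^ 2 + x1 * x2 + x2 ^ 2 + A := by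
      by_cases hx : IsLocalRing.residue O x1 = IsLocalRing.residue O x2
      · have hy : IsLocalRing.residue O (y1 + y2) ≠ 0 := by
          intro h
          rw [map_add] at h
          exact hc ⟨hx, eq_neg_of_add_eq_zero_left h⟩
        obtain ⟨u, hu⟩ := unit_of hy
        have E2 : (x1 ^ 2 + x1 * x2 + x2 ^ 2 + A) * u * (y1 + y2) =
            x1 ^ 2 + x1 * x2 + x2 ^ 2 + A := by
          linear_combination (x1 ^ 2 + x1 * x2 + x2 ^ 2 + A) * hu
        refine ⟨_, e_of_y c1 c2 ?_ E2, E2⟩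
        intro h
        rw [h, map_zero] at hy
        exact hy rfl
      · have hx' : IsLocalRing.residue O (x1 - x2) ≠ 0 := by
          rw [map_sub]; exact sub_ne_zero.2 hx
        obtain ⟨u, hu⟩ := unit_of hx'
        have E1 : (y1 - y2) * u * (x1 - x2) = y1 - y2 := by
          linear_combination (y1 - y2) * hu
        refine ⟨_, E1, e_of_x c1 c2 ?_ E1⟩
        intro h
        rw [h, map_zero] at hx'
        exact hx' rfl
    have hn : ¬((x1 : K) = x2 ∧ (y1 : K) = -y2) := by
      rintro ⟨e1, e2⟩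
      have e1' : x1 = x2 := Subtype.ext e1
      have e2' : y1 = -y2 := by apply Subtype.ext; push_cast; exact e2
      apply hc
      rw [e1', e2', map_neg]
      exact ⟨rfl, rfl⟩
    have E1 : (l : K) * (x1 - x2) = y1 - y2 := by
      have := congrArg (fun z : O => (z : K)) F1
      simpa using this
    have E2 : (l : K) * (y1 + y2) = (x1 : K) ^ 2 + x1 * x2 + (x2 : K) ^ 2 + A := by
      have := congrArg (fun z : O => (z : K)) F2
      simpa using this
    have G1 : IsLocalRing.residue O l * (IsLocalRing.residue O x1 - IsLocalRing.residue O x2) = IsLocalRing.residue O y1 - IsLocalRing.residue O y2 := by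
      have := congrArg (fun z : O => IsLocalRing.residue O z) F1
      simpa using this
    have G2 : IsLocalRing.residue O l * (IsLocalRing.residue O y1 + IsLocalRing.residue O y2) = IsLocalRing.residue O x1 ^ 2 + IsLocalRing.residue O x1 * IsLocalRing.residue O x2 + IsLocalRing.residue O x2 ^ 2 + IsLocalRing.residue O A := by
      have := congrArg (fun z : O => IsLocalRing.residue O z) F2
      simpa using this
    obtain ⟨h3, e⟩ := add_eq h1 h2 hn E1 E2
    obtain ⟨h3', e'⟩ := add_eq n1 n2 hc G1 G2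
    rw [e, e', ← pt_of h3']
    set X : O := l ^ 2 - x1 - x2 with hX
    set Y : O := -(l * (X - x1) + y1) with hY
    have eX : (l : K) ^ 2 - x1 - x2 = (X : K) := by rw [hX]; push_cast; rfl
    have eY : -((l : K) * ((l : K) ^ 2 - x1 - x2 - x1) + y1) = (Y : K) := by
      rw [hY, eX]; push_cast; rfl
    have h4 : (cv (A : K) (B : K)).Nonsingular (X : K) (Y : K) := by
      rw [← eX, ← eY]; exact h3
    have e4 : (Point.some _ _ h3 : (cv (A : K) (B : K)).Point) = .some _ _ h4 := by
      simp only [Point.some.injEq]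
      exact ⟨eX, eY⟩
    rw [e4, psi_int]
    congr 1

theorem psi_add (h2K : (2 : K) ≠ 0) (h2 : IsLocalRing.residue O (2 : O) ≠ 0)
    (hD : IsLocalRing.residue O (4 * A ^ 3 + 27 * B ^ 2 : O) ≠ 0) (P Q : (cv (A : K) (B : K)).Point) :
    psi O A B (P + Q) = psi O A B P + psi O A B Q := by
  have mix : ∀ {P Q : (cv (A : K) (B : K)).Point}, Ker O A B P → Int' O A B Q →
      psi O A B (P + Q) = psi O A B P + psi O A B Q := by
    intro P Q hP hQ
    rw [psi_ker hP, zero_add]
    have hR : Int' O A B (P + Q) := by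
      rcases cases_pt (P + Q) with h | h
      · exfalso
        have := ker_add h2K (ker_neg hP) h
        rw [neg_add_cancel_left] at this
        exact not_both this hQ
      · exact h
    have hQ' : Int' O A B (-Q) := by
      rcases cases_pt (-Q) with h | h
      · exfalso
        have := ker_neg h
        rw [neg_neg] at this
        exact not_both this hQ
      · exact h
    have h3 := int_add h2 hD hR hQ'
    rw [add_neg_cancel_right, psi_ker hP, psi_neg h2 hD] at h3
    exact (add_neg_eq_zero.1 h3.symm)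
  rcases cases_pt P with hP | hP
  · rcases cases_pt Q with hQ | hQ
    · rw [psi_ker hP, psi_ker hQ, psi_ker (ker_add h2K hP hQ), add_zero]
    · exact mix hP hQ
  · rcases cases_pt Q with hQ | hQ
    · rw [add_comm P Q, mix hQ hP, add_comm]
    · exact int_add h2 hD hP hQ

end val

theorem red : S_RED := by
  intro K _ _ _ _ O _ A B hD h2
  have h2' : IsLocalRing.residue O (2 : O) ≠ 0 :=
    (IsLocalRing.residue_ne_zero_iff_isUnit _).2 h2
  have hD' : IsLocalRing.residue O (4 * A ^ 3 + 27 * B ^ 2 : O) ≠ 0 :=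
    (IsLocalRing.residue_ne_zero_iff_isUnit _).2 hD
  refine ⟨{ toFun := psi O A B, map_zero' := rfl, map_add' := ?_ }, ?_, ?_⟩
  · exact psi_add two_ne_zero h2' hD'
  · intro x y h
    exact psi_int x y h
  · intro x y h hx
    exact psi_non h hx

end Pool.Agent.W978.EZ
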